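import Pool.Agent.H157R3.DP.Series

/-!
# The `r`-th difference of the rank function of an `r`-differential poset is positive

Proof. Let `1_m` be the all-ones vector on rank `m`, `U`, `D` the up and down operators. From
`D 1_m = r 1_{m-1} + U 1_{m-2}` one gets `1_m = ∑ α_{m-i} U^{m-i} a_i` with `D a_i = 0` and
`∑ α_s x^s = exp (x + x²/(2r))`. Hence `p_m = ∑ β_{m-i} e_i` with `e_i = ‖a_i‖² ≥ 0`, `e_0 = 1` and
`β_s = s! r^s α_s²`. Finally
`(1-x)^r ∑ β_s x^s = (1-x²)^{-1/2} exp (r ∑ (1 - 1/k) x^k)` has nonnegative coefficients, and those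
of `x^n`, `n ≥ 2`, are positive.
-/

set_option autoImplicit false

open Finset

namespace Pool.Agent.Results.MP_87b2fe_co.PositiveDifference

open Pool.Agent.H157R3.DP

/-- `P` with rank function `ρ` is an `r`-differential poset. -/
structure IsDifferential (r : ℕ) (P : Type*) [PartialOrder P] [OrderBot P] [LocallyFiniteOrder P]
    (ρ : P → ℕ) : Prop where
  rank_bot : ρ ⊥ = 0
  rank_covBy : ∀ x y : P, x ⋖ y → ρ y = ρ x + 1
  finite_rank : ∀ n : ℕ, {x : P | ρ x = n}.Finite
  d1 : ∀ x y : P, x ≠ y → {z : P | z ⋖ x ∧ z ⋖ y}.ncard = {z : P | x ⋖ z ∧ y ⋖ z}.ncard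
  d2 : ∀ x : P, {z : P | x ⋖ z}.ncard = {z : P | z ⋖ x}.ncard + r

/-- the rank function `p_n` -/
noncomputable def rankFn {P : Type*} (ρ : P → ℕ) (n : ℕ) : ℤ := ({x : P | ρ x = n}.ncard : ℤ)

/-- first difference: `(Δ q)_0 = q_0`, `(Δ q)_n = q_n - q_{n-1}` for `n ≥ 1` -/
def diff (q : ℕ → ℤ) : ℕ → ℤ
  | 0 => q 0
  | (n + 1) => q (n + 1) - q n

lemma mk_diff (q : ℕ → ℤ) : PowerSeries.mk (fun n => ((diff q n : ℤ) : ℝ)) =
    (1 - PowerSeries.X) * PowerSeries.mk (fun n => ((q n : ℤ) : ℝ)) := by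
  ext n
  rcases n with _ | n
  · rw [sub_mul, one_mul, map_sub]
    simp [diff]
  · rw [sub_mul, one_mul, map_sub, PowerSeries.coeff_succ_X_mul]
    simp [diff]

lemma mk_diff_iter (q : ℕ → ℤ) (t : ℕ) : PowerSeries.mk (fun n => ((diff^[t] q n : ℤ) : ℝ)) =
    (1 - PowerSeries.X) ^ t * PowerSeries.mk (fun n => ((q n : ℤ) : ℝ)) := by
  induction t with
  | zero => simp
  | succ t ih =>
    rw [Function.iterate_succ', Function.comp_apply, mk_diff, ih, pow_succ']
    ring

section

variable {r : ℕ} {P : Type*} [PartialOrder P] [OrderBot P] [LocallyFiniteOrder P] {ρ : P → ℕ}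

lemma fin_dn (h : IsDifferential r P ρ) (x : P) : {z : P | z ⋖ x}.Finite := by
  apply (h.finite_rank (ρ x - 1)).subset
  intro z hz
  have := h.rank_covBy z x hz
  show ρ z = ρ x - 1
  omega

lemma fin_up (h : IsDifferential r P ρ) (x : P) : {z : P | x ⋖ z}.Finite := by
  apply (h.finite_rank (ρ x + 1)).subset
  intro z hz
  exact h.rank_covBy x z hz

open Classical in
/-- the combinatorial data -/
noncomputable def dat (h : IsDifferential r P ρ) (hr : 1 ≤ r) : Dat P where
  r := r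
  hr := hr
  rk := ρ
  up x := (fin_up h x).toFinset
  dn x := (fin_dn h x).toFinset
  R n := (h.finite_rank n).toFinset
  mem_R n x := by simp
  mem_up x y := by simp
  rk_dn x y := by
    intro hxy
    exact h.rank_covBy x y (by simpa using hxy)
  card_up x := by
    have h1 := h.d2 x
    rw [Set.ncard_eq_toFinset_card _ (fin_up h x), Set.ncard_eq_toFinset_card _ (fin_dn h x)] at h1
    exact h1
  comm x z hxz := by
    have h1 := h.d1 x z hxz
    have e1 : {y : P | x ⋖ y ∧ z ⋖ y} =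
        (((fin_up h x).toFinset.filter (fun y => z ∈ (fin_dn h y).toFinset) : Finset P) : Set P) := by
      ext y
      simp
    have e2 : {y : P | y ⋖ x ∧ y ⋖ z} =
        (((fin_dn h x).toFinset.filter (fun y => z ∈ (fin_up h y).toFinset) : Finset P) : Set P) := by
      ext y
      simp
    rw [e1, e2, Set.ncard_coe_finset, Set.ncard_coe_finset] at h1
    exact h1.symm

end

lemma pos_of_diff (q : ℕ → ℤ) (h0 : 0 < diff q 0) (h : ∀ n, 0 ≤ diff q n) (n : ℕ) : 0 < q n := by
  induction n with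
  | zero => exact h0
  | succ n ih =>
    have := h (n + 1)
    simp only [diff] at this
    linarith

/-- **Positivity of differences.** For every `r ≥ 1` and every `r`-differential poset with rank
function `p`, one has `(Δ^r p)_n > 0` for all `n ≥ 2`; moreover `(Δ^t p)_n > 0` for all `t < r` and
all `n ≥ 0`. -/
theorem result (r : ℕ) (hr : 1 ≤ r) (P : Type*) [PartialOrder P] [OrderBot P]
    [LocallyFiniteOrder P] (ρ : P → ℕ) (h : IsDifferential r P ρ) :
    (∀ n : ℕ, 2 ≤ n → 0 < diff^[r] (rankFn ρ) n) ∧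
      ∀ t < r, ∀ n : ℕ, 0 < diff^[t] (rankFn ρ) n := by
  classical
  set T := dat h hr with hT
  have hTr : T.r = r := rfl
  have hcard : ∀ m, ((rankFn ρ m : ℤ) : ℝ) = ((T.R m).card : ℝ) := by
    intro m
    unfold rankFn
    rw [Set.ncard_eq_toFinset_card _ (h.finite_rank m)]
    simp [hT, dat]
  have he0 : 0 < T.e 0 := by
    rw [T.e_zero]
    have : ⊥ ∈ T.R 0 := (T.mem_R 0 ⊥).mpr h.rank_bot
    exact_mod_cast Finset.card_pos.mpr ⟨_, this⟩
  have hmk : PowerSeries.mk (fun n => ((rankFn ρ n : ℤ) : ℝ)) = PowerSeries.mk T.e * BB (r : ℝ) := by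
    ext m
    rw [PowerSeries.coeff_mul, PowerSeries.coeff_mk, hcard, T.card_R,
      Finset.Nat.sum_antidiagonal_eq_sum_range_succ_mk]
    apply Finset.sum_congr rfl
    intro i _
    simp only [PowerSeries.coeff_mk, BB, hTr]
    ring
  have hmk2 : PowerSeries.mk (fun n => ((diff^[r] (rankFn ρ) n : ℤ) : ℝ)) =
      PowerSeries.mk T.e * CC r := by
    rw [mk_diff_iter, hmk, CC]
    ring
  have hco : ∀ n, ((diff^[r] (rankFn ρ) n : ℤ) : ℝ) =
      ∑ ij ∈ antidiagonal n, T.e ij.1 * PowerSeries.coeff ij.2 (CC r) := by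
    intro n
    have h1 := congrArg (PowerSeries.coeff n) hmk2
    rw [PowerSeries.coeff_mk, PowerSeries.coeff_mul] at h1
    simpa using h1
  have hnn : ∀ n, 0 ≤ diff^[r] (rankFn ρ) n := by
    intro n
    have h1 : (0 : ℝ) ≤ ((diff^[r] (rankFn ρ) n : ℤ) : ℝ) := by
      rw [hco]
      exact Finset.sum_nonneg (fun ij _ => mul_nonneg (T.e_nonneg _) (coeff_CC_nonneg hr _))
    exact_mod_cast h1
  have hpos : ∀ n, 0 < PowerSeries.coeff n (CC r) → 0 < diff^[r] (rankFn ρ) n := by
    intro n hn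
    have h1 : (0 : ℝ) < ((diff^[r] (rankFn ρ) n : ℤ) : ℝ) := by
      rw [hco]
      apply Finset.sum_pos' (fun ij _ => mul_nonneg (T.e_nonneg _) (coeff_CC_nonneg hr _))
      exact ⟨(0, n), by simp, mul_pos he0 hn⟩
    exact_mod_cast h1
  refine ⟨?_, ?_⟩
  · intro n hn
    obtain ⟨k, rfl⟩ : ∃ k, n = k + 2 := ⟨n - 2, by omega⟩
    exact hpos _ (coeff_CC_pos hr k)
  · have h0 : 0 < diff^[r] (rankFn ρ) 0 := hpos 0 (by rw [coeff_CC_zero]; norm_num)
    have key : ∀ s t : ℕ, t + s + 1 = r → ∀ n, 0 < diff^[t] (rankFn ρ) n := by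
      intro s
      induction s with
      | zero =>
        intro t ht n
        have e1 : diff^[r] (rankFn ρ) = diff (diff^[t] (rankFn ρ)) := by
          rw [← ht, add_zero, Function.iterate_succ', Function.comp_apply]
        rw [e1] at h0 hnn
        exact pos_of_diff _ h0 hnn n
      | succ s ih =>
        intro t ht n
        have h1 := ih (t + 1) (by omega)
        rw [Function.iterate_succ', Function.comp_apply] at h1
        exact pos_of_diff _ (h1 0) (fun n => (h1 n).le) n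
    intro t ht n
    exact key (r - t - 1) t (by omega) n

end Pool.Agent.Results.MP_87b2fe_co.PositiveDifference
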